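import Pool.Agent.N943.NT.Stm

/-!
# NT/7b: choice of the depth set
-/

set_option autoImplicit false

open Finset

namespace Pool.Agent.N218.NT

open N943.NT

theorem card_cut {R : Finset ℕ} {a b : ℕ} (ha : a ∈ R) (hb : b ∈ R) (hab : a ≠ b) :
    4 * (R.powerset.filter (fun S => b ∈ S ∧ a ∉ S)).card = 2 ^ R.card := by
  have h1 : R.powerset.filter (fun S => b ∈ S ∧ a ∉ S) =
      ((R.erase a).erase b).powerset.image (insert b) := by
    ext S
    rw [mem_filter, mem_powerset, mem_image]
    constructor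
    · rintro ⟨h, hbS, haS⟩
      refine ⟨S.erase b, ?_, insert_erase hbS⟩
      rw [mem_powerset]
      intro x hx
      rw [mem_erase] at hx
      rw [mem_erase, mem_erase]
      exact ⟨hx.1, fun h' => haS (h' ▸ hx.2), h hx.2⟩
    · rintro ⟨T, hT, rfl⟩
      rw [mem_powerset] at hT
      refine ⟨?_, mem_insert_self _ _, ?_⟩
      · intro x hx
        rcases mem_insert.1 hx with rfl | hx
        · exact hb
        · exact mem_of_mem_erase (mem_of_mem_erase (hT hx))
      · intro h
        rcases mem_insert.1 h with h | h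
        · exact hab h
        · exact (mem_erase.1 (mem_of_mem_erase (hT h))).1 rfl
  have hbe : b ∈ R.erase a := mem_erase.2 ⟨hab.symm, hb⟩
  rw [h1, card_image_of_injOn, card_powerset, card_erase_of_mem hbe, card_erase_of_mem ha]
  · have h2 : 1 < R.card := one_lt_card.2 ⟨a, ha, b, hb, hab⟩
    obtain ⟨k, hk⟩ : ∃ k, R.card = k + 2 := ⟨R.card - 2, by omega⟩
    rw [hk]
    have : k + 2 - 1 - 1 = k := by omega
    rw [this, pow_add]
    ring
  · intro S hS T hT h
    rw [mem_coe, mem_powerset] at hS hT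
    have hbS : b ∉ S := fun h' => (mem_erase.1 (hS h')).1 rfl
    have hbT : b ∉ T := fun h' => (mem_erase.1 (hT h')).1 rfl
    have this : (insert b S).erase b = (insert b T).erase b := congrArg (fun X => X.erase b) h
    rwa [erase_insert hbS, erase_insert hbT] at this

/-- **NT/7b** -/
theorem exS : ExS := by
  intro V _ U f g h
  by_contra hc
  push Not at hc
  set R : Finset ℕ := U.image f ∪ U.image g with hR
  have h1 : ∑ S ∈ R.powerset, 4 * (U.filter (fun u => g u ∈ S ∧ f u ∉ S)).card =
      ∑ u ∈ U, 4 * (R.powerset.filter (fun S => g u ∈ S ∧ f u ∉ S)).card := by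
    rw [← mul_sum, ← mul_sum]
    congr 1
    rw [sum_congr rfl fun S _ => card_filter (fun u => g u ∈ S ∧ f u ∉ S) U,
      sum_congr rfl fun u _ => card_filter (fun S => g u ∈ S ∧ f u ∉ S) R.powerset, sum_comm]
  have h2 : ∑ u ∈ U, 4 * (R.powerset.filter (fun S => g u ∈ S ∧ f u ∉ S)).card =
      U.card * 2 ^ R.card := by
    rw [sum_congr rfl fun u hu => card_cut (mem_union_left _ (mem_image_of_mem f hu))
      (mem_union_right _ (mem_image_of_mem g hu)) (h u hu), sum_const, smul_eq_mul]
  have h3 : ∑ S ∈ R.powerset, 4 * (U.filter (fun u => g u ∈ S ∧ f u ∉ S)).card <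
      ∑ S ∈ R.powerset, U.card :=
    sum_lt_sum_of_nonempty ⟨∅, empty_mem_powerset R⟩ fun S _ => hc S
  rw [h1, h2, sum_const, card_powerset, smul_eq_mul, mul_comm] at h3
  exact lt_irrefl _ h3

end Pool.Agent.N218.NT
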