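import Pool.Agent.N943.NT.Basic

/-!
# NT/7c: the leaf family
-/

set_option autoImplicit false
set_option linter.unusedSectionVars false

open Finset

namespace Pool.Agent.N218.NT

open N943.NT

section

variable {V : Type} [Fintype V] [DecidableEq V] {G : SimpleGraph V} {r : V} {p a b : V → V}
  {U : Finset V} {S : Finset ℕ}

/-- the modified parent function -/
def qq (p a b : V → V) (U X : Finset V) (v : V) : V :=
  if v ∈ U then (if v ∈ X then b v else a v) else p v

theorem qq_out {X : Finset V} {v : V} (h : v ∉ U) : qq p a b U X v = p v := if_neg h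

theorem qq_b {X : Finset V} {v : V} (h : v ∈ U) (hX : v ∈ X) : qq p a b U X v = b v := by
  unfold qq
  rw [if_pos h, if_pos hX]

theorem qq_a {X : Finset V} {v : V} (h : v ∈ U) (hX : v ∉ X) : qq p a b U X v = a v := by
  unfold qq
  rw [if_pos h, if_neg hX]

/-- the vertices all of whose children are in `U` -/
def ZZ (p : V → V) (U : Finset V) : Finset V := univ.filter (fun v => ch p v ⊆ U)

theorem mem_ZZ {v : V} : v ∈ ZZ p U ↔ ch p v ⊆ U := by
  unfold ZZ
  rw [mem_filter]
  exact ⟨fun h => h.2, fun h => ⟨mem_univ _, h⟩⟩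

variable (hRT : RT r p) (hIn : InG G p) (hU : GoodU G p a b U)

include hRT hU

theorem U_ne {u : V} (hu : u ∈ U) : u ≠ r := by
  rintro rfl
  obtain ⟨h1, h2, -⟩ := hU.1 u hu
  obtain ⟨c, hc, -⟩ := Anc.exists_child (hRT.anc_root (a u)) h2.ne
  rw [h1] at hc
  exact notMem_empty _ hc

theorem anc_W {u x : V} (hu : u ∈ U) (hx : Anc p x (p u)) (hne : x ≠ p u) : x ∉ ZZ p U := by
  rw [mem_ZZ]
  intro h
  obtain ⟨c, hc, hc2⟩ := Anc.exists_child hx hne
  have hcU := (hU.1 c (h hc)).1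
  rcases eq_or_ne c (p u) with h1 | h1
  · have h2 := hRT.mem_ch_self (U_ne hRT hU hu)
    rw [← h1, hcU] at h2
    exact notMem_empty _ h2
  · obtain ⟨d, hd, -⟩ := Anc.exists_child hc2 h1
    rw [hcU] at hd
    exact notMem_empty _ hd

theorem a_W {u : V} (hu : u ∈ U) : a u ∉ ZZ p U :=
  anc_W hRT hU hu (hU.1 u hu).2.2.2.2.2.1 (hU.1 u hu).2.2.2.2.1

theorem b_W {u : V} (hu : u ∈ U) : b u ∉ ZZ p U :=
  anc_W hRT hU hu (hU.1 u hu).2.2.2.2.2.2.2 (hU.1 u hu).2.2.2.2.2.2.1

theorem U_Z {u : V} (hu : u ∈ U) : u ∈ ZZ p U := by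
  rw [mem_ZZ, (hU.1 u hu).1]
  exact empty_subset _

theorem r_U : r ∉ U := fun h => U_ne hRT hU h rfl

theorem qq_RT (X : Finset V) : RT r (qq p a b U X) := by
  refine RT_of_lt (dep r p) ?_ ?_
  · rw [qq_out (r_U hRT hU), hRT.1]
  · intro v hv
    have h1 := hRT.dep_succ hv
    by_cases hvU : v ∈ U
    · by_cases hX : v ∈ X
      · rw [qq_b hvU hX]
        have := Anc.dep_le hRT (hU.1 v hvU).2.2.2.2.2.2.2
        omega
      · rw [qq_a hvU hX]
        have := Anc.dep_le hRT (hU.1 v hvU).2.2.2.2.2.1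
        omega
    · rw [qq_out hvU]
      omega

include hIn in
theorem qq_In (X : Finset V) : InG G (qq p a b U X) := by
  intro v hv
  by_cases hvU : v ∈ U
  · by_cases hX : v ∈ X
    · rw [qq_b hvU hX]
      exact (hU.1 v hvU).2.2.1
    · rw [qq_a hvU hX]
      exact (hU.1 v hvU).2.1
  · rw [qq_out hvU] at hv ⊢
    exact hIn v hv

theorem qq_W {X : Finset V} {v : V} (hv : v ∈ U) : qq p a b U X v ∉ ZZ p U := by
  by_cases hX : v ∈ X
  · rw [qq_b hv hX]
    exact b_W hRT hU hv
  · rw [qq_a hv hX]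
    exact a_W hRT hU hv

theorem ch_qq {X : Finset V} {v : V} : ch (qq p a b U X) v = ∅ ↔ v ∈ ZZ p U := by
  rw [mem_ZZ]
  constructor
  · intro h x hx
    by_contra hxU
    have h1 : x ∈ ch (qq p a b U X) v := by
      rw [(qq_RT hRT hU X).mem_ch_iff, qq_out hxU]
      exact hRT.mem_ch_iff.1 hx
    rw [h] at h1
    exact notMem_empty _ h1
  · intro h
    rw [eq_empty_iff_forall_notMem]
    intro x hx
    rw [(qq_RT hRT hU X).mem_ch_iff] at hx
    by_cases hxU : x ∈ U
    · refine qq_W hRT hU (X := X) hxU ?_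
      rw [hx.2, mem_ZZ]
      exact h
    · rw [qq_out hxU] at hx
      exact hxU (h (hRT.mem_ch_iff.2 hx))

theorem W_U {w : V} (hw : w ∉ ZZ p U) : w ∉ U := fun h => hw (U_Z hRT hU h)

theorem W_p {w : V} (hw : w ∉ ZZ p U) : p w ∉ ZZ p U := by
  by_cases h : w = r
  · rw [h, hRT.1]
    rw [h] at hw
    exact hw
  · intro h1
    rw [mem_ZZ] at h1
    exact W_U hRT hU hw (h1 (hRT.mem_ch_self h))

theorem W_iter {w : V} (hw : w ∉ ZZ p U) (k : ℕ) : p^[k] w ∉ ZZ p U := by
  induction k generalizing w with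
  | zero => exact hw
  | succ k ih =>
    rw [Function.iterate_succ_apply]
    exact ih (W_p hRT hU hw)

theorem qq_iter {X : Finset V} {w : V} (hw : w ∉ ZZ p U) (k : ℕ) :
    (qq p a b U X)^[k] w = p^[k] w := by
  induction k generalizing w with
  | zero => rfl
  | succ k ih =>
    rw [Function.iterate_succ_apply, Function.iterate_succ_apply, qq_out (W_U hRT hU hw)]
    exact ih (W_p hRT hU hw)

theorem qq_dep {X : Finset V} {w : V} (hw : w ∉ ZZ p U) : dep r (qq p a b U X) w = dep r p w := by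
  unfold dep
  congr 1
  ext k
  simp only [Set.mem_ofPred_eq]
  rw [qq_iter hRT hU hw]

theorem b_inj {u u' : V} (hu : u ∈ U) (hu' : u' ∈ U) (h : b u = b u') : u = u' :=
  hU.2 u hu u' hu' (b u) (hU.1 u hu).2.2.1 (by rw [h]; exact (hU.1 u' hu').2.2.1)

/-- the label -/
noncomputable def cl (r : V) (p a : V → V) (U : Finset V) (S : Finset ℕ) (w : V) : ℕ :=
  if dep r p w ∈ S then ((ch p w \ U) ∩ ZZ p U).card + (U.filter (fun u => a u = w)).card else 0

theorem count {X : Finset V} (hX : X ⊆ U.filter (fun u => dep r p (b u) ∈ S ∧ dep r p (a u) ∉ S))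
    {w : V} (hw : w ∉ ZZ p U) (hS : dep r p w ∈ S) :
    (ch (qq p a b U X) w ∩ ZZ p U).card = cl r p a U S w + (X.filter (fun u => b u = w)).card := by
  have hXU : ∀ u ∈ X, u ∈ U := fun u hu => (mem_filter.1 (hX hu)).1
  have e : ch (qq p a b U X) w ∩ ZZ p U = ((ch p w \ U) ∩ ZZ p U ∪ U.filter (fun u => a u = w)) ∪
      X.filter (fun u => b u = w) := by
    ext v
    rw [mem_inter, mem_union, mem_union, mem_inter, mem_sdiff, mem_filter, mem_filter,
      (qq_RT hRT hU X).mem_ch_iff, hRT.mem_ch_iff]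
    constructor
    · rintro ⟨⟨h1, h2⟩, h3⟩
      by_cases hvU : v ∈ U
      · by_cases hvX : v ∈ X
        · rw [qq_b hvU hvX] at h2
          exact Or.inr ⟨hvX, h2⟩
        · rw [qq_a hvU hvX] at h2
          exact Or.inl (Or.inr ⟨hvU, h2⟩)
      · rw [qq_out hvU] at h2
        exact Or.inl (Or.inl ⟨⟨⟨h1, h2⟩, hvU⟩, h3⟩)
    · rintro ((⟨⟨h1, h2⟩, h3⟩ | ⟨h1, h2⟩) | ⟨h1, h2⟩)
      · rw [qq_out h2]
        exact ⟨h1, h3⟩
      · refine ⟨⟨U_ne hRT hU h1, ?_⟩, U_Z hRT hU h1⟩
        rw [qq_a h1]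
        · exact h2
        · intro hvX
          have := (mem_filter.1 (hX hvX)).2.2
          rw [h2] at this
          exact this hS
      · have h3 := hXU v h1
        refine ⟨⟨U_ne hRT hU h3, ?_⟩, U_Z hRT hU h3⟩
        rw [qq_b h3 h1]
        exact h2
  have d1 : Disjoint ((ch p w \ U) ∩ ZZ p U) (U.filter (fun u => a u = w)) := by
    rw [disjoint_left]
    intro v h1 h2
    rw [mem_inter, mem_sdiff] at h1
    exact h1.1.2 (mem_filter.1 h2).1
  have d2 : Disjoint ((ch p w \ U) ∩ ZZ p U ∪ U.filter (fun u => a u = w))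
      (X.filter (fun u => b u = w)) := by
    rw [disjoint_left]
    intro v h1 h2
    rw [mem_filter] at h2
    rcases mem_union.1 h1 with h1 | h1
    · rw [mem_inter, mem_sdiff] at h1
      exact h1.1.2 (hXU v h2.1)
    · rw [mem_filter] at h1
      have := (mem_filter.1 (hX h2.1)).2.2
      rw [h1.2] at this
      exact this hS
  rw [e, card_union_of_disjoint d2, card_union_of_disjoint d1]
  unfold cl
  rw [if_pos hS]

end

/-- **NT/7c** -/
theorem leafFam (hM : Marks) : LeafFam := by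
  intro D
  obtain ⟨γ, hγ, hmarks⟩ := hM D
  refine ⟨γ, hγ, ?_⟩
  intro V _ _ G r p a b U S hRT hIn hD hU
  classical
  set US := U.filter (fun u => dep r p (b u) ∈ S ∧ dep r p (a u) ∉ S) with hUS
  by_cases hne : US.Nonempty
  swap
  · rw [not_nonempty_iff_eq_empty] at hne
    refine ⟨{p}, ?_, ?_, ?_⟩
    · intro q hq
      rw [mem_singleton.1 hq]
      exact ⟨hRT, hIn⟩
    · intro q hq q' hq' _
      rw [mem_singleton.1 hq, mem_singleton.1 hq']
    · rw [hne]
      simp
  obtain ⟨u0, hu0⟩ := hne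
  have hUSU : ∀ u ∈ US, u ∈ U := fun u hu => (mem_filter.1 hu).1
  have hrW : r ∉ ZZ p U := by
    have h1 := W_iter hRT hU (a_W hRT hU (hUSU u0 hu0)) (dep r p (a u0))
    rwa [hRT.iter_dep] at h1
  -- the tree on the complement
  set W := {w : V // w ∉ ZZ p U} with hWdef
  set pW : W → W := fun w => ⟨p w.1, W_p hRT hU w.2⟩ with hpW
  set rW : W := ⟨r, hrW⟩ with hrWd
  have pW_iter : ∀ (k : ℕ) (w : W), ((pW^[k] w : W) : V) = p^[k] w.1 := by
    intro k
    induction k with
    | zero => intro w; rfl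
    | succ k ih =>
      intro w
      rw [Function.iterate_succ_apply, Function.iterate_succ_apply, ih]
  have hRTW : RT rW pW := by
    refine ⟨Subtype.ext hRT.1, fun w => ?_⟩
    obtain ⟨k, hk⟩ := hRT.2 w.1
    exact ⟨k, Subtype.ext (by rw [pW_iter]; exact hk)⟩
  have hDW : ∀ w : W, (ch pW w).card ≤ D := by
    intro w
    refine le_trans ?_ ((ch_card_le hIn w.1).trans (hD w.1))
    refine card_le_card_of_injOn (fun x => x.1) ?_ (fun x _ y _ h => Subtype.ext h)
    intro x hx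
    rw [mem_coe, mem_ch] at hx ⊢
    exact ⟨fun h => hx.1 (Subtype.ext h), congrArg Subtype.val hx.2⟩
  set M : Finset W := univ.filter (fun w : W => ∃ u ∈ US, b u = w.1) with hMdef
  have hMcard : M.card = US.card := by
    symm
    refine card_bij (fun u hu => ⟨b u, b_W hRT hU (hUSU u hu)⟩) ?_ ?_ ?_
    · intro u hu
      rw [hMdef, mem_filter]
      exact ⟨mem_univ _, u, hu, rfl⟩
    · intro u hu u' hu' h
      exact b_inj hRT hU (hUSU u hu) (hUSU u' hu') (congrArg Subtype.val h)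
    · intro w hw
      rw [hMdef, mem_filter] at hw
      obtain ⟨-, u, hu, h⟩ := hw
      exact ⟨u, hu, Subtype.ext h⟩
  obtain ⟨F, hF1, hF2, hF3⟩ := hmarks W rW pW (fun w => cl r p a U S w.1) M hRTW hDW
  set XX : Finset W → Finset V := fun X' => US.filter (fun u => ∃ x ∈ X', b u = x.1) with hXX
  have hXXs : ∀ X', XX X' ⊆ US := fun X' => filter_subset _ _
  have hb1 : ∀ X' ⊆ M, ∀ w : W, ((XX X').filter (fun u => b u = w.1)).card =
      if w ∈ X' then 1 else 0 := by
    intro X' hX' w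
    split_ifs with h
    · have h1 := hX' h
      rw [hMdef, mem_filter] at h1
      obtain ⟨-, u, hu, hub⟩ := h1
      rw [card_eq_one]
      refine ⟨u, ?_⟩
      ext v
      rw [mem_filter, hXX, mem_filter, mem_singleton]
      constructor
      · rintro ⟨⟨h2, -⟩, h3⟩
        exact b_inj hRT hU (hUSU v h2) (hUSU u hu) (h3.trans hub.symm)
      · rintro rfl
        exact ⟨⟨hu, w, h, hub⟩, hub⟩
    · rw [card_eq_zero, filter_eq_empty_iff]
      intro v hv hvw
      rw [hXX, mem_filter] at hv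
      obtain ⟨-, x, hx, hxb⟩ := hv
      have : x = w := Subtype.ext (hxb.symm.trans hvw)
      rw [this] at hx
      exact h hx
  have key : ∀ X' ∈ F, ∀ Y' ∈ F, Conj (qq p a b U (XX X')) (qq p a b U (XX Y')) → X' = Y' := by
    rintro X' hX' Y' hY' ⟨θ, hθ⟩
    refine hF3 X' hX' Y' hY' ?_
    have hRX := qq_RT hRT hU (XX X')
    have hRY := qq_RT hRT hU (XX Y')
    have hZ : ∀ v, θ v ∈ ZZ p U ↔ v ∈ ZZ p U := by
      intro v
      rw [← ch_qq hRT hU (X := XX Y'), ← ch_qq hRT hU (X := XX X'), ← card_eq_zero,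
        ← card_eq_zero, conj_ch_card hθ]
    have hW : ∀ v, θ v ∉ ZZ p U ↔ v ∉ ZZ p U := fun v => not_congr (hZ v)
    have hdep : ∀ w : W, dep r p (θ w.1) = dep r p w.1 := by
      intro w
      have h1 := conj_dep hRX hRY hθ w.1
      rwa [qq_dep hRT hU ((hW w.1).2 w.2), qq_dep hRT hU w.2] at h1
    have hcnt : ∀ w : W, (ch (qq p a b U (XX Y')) (θ w.1) ∩ ZZ p U).card =
        (ch (qq p a b U (XX X')) w.1 ∩ ZZ p U).card := by
      intro w
      rw [conj_ch hθ]
      have e : (ch (qq p a b U (XX X')) w.1).map θ.toEmbedding ∩ ZZ p U =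
          (ch (qq p a b U (XX X')) w.1 ∩ ZZ p U).map θ.toEmbedding := by
        ext v
        rw [mem_inter, mem_map, mem_map]
        constructor
        · rintro ⟨⟨x, hx, rfl⟩, h2⟩
          exact ⟨x, mem_inter.2 ⟨hx, (hZ x).1 h2⟩, rfl⟩
        · rintro ⟨x, hx, rfl⟩
          exact ⟨⟨x, (mem_inter.1 hx).1, rfl⟩, (hZ x).2 (mem_inter.1 hx).2⟩
      rw [e, card_map]
    refine ⟨θ.subtypePerm (fun v => hW v), ?_, ?_⟩
    · intro w
      refine Subtype.ext ?_
      show θ (p w.1) = p (θ w.1)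
      have h1 := hθ w.1
      rwa [qq_out (W_U hRT hU w.2), qq_out (W_U hRT hU ((hW w.1).2 w.2))] at h1
    · intro w
      unfold lab
      have h1 := hcnt w
      by_cases hS : dep r p w.1 ∈ S
      · have hS' : dep r p (θ w.1) ∈ S := by rw [hdep]; exact hS
        rw [count hRT hU (hXXs Y') ((hW w.1).2 w.2) hS', count hRT hU (hXXs X') w.2 hS,
          hb1 X' (hF1 X' hX') w] at h1
        have h2 := hb1 Y' (hF1 Y' hY') ⟨θ w.1, (hW w.1).2 w.2⟩
        simp only at h2
        rw [h2] at h1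
        exact h1
      · have hS' : dep r p (θ w.1) ∉ S := by rw [hdep]; exact hS
        have hM' : ∀ x : W, dep r p x.1 ∉ S → x ∉ M := by
          intro x hx h
          rw [hMdef, mem_filter] at h
          obtain ⟨-, u, hu, hub⟩ := h
          rw [← hub] at hx
          exact hx (mem_filter.1 hu).2.1
        have c1 : cl r p a U S w.1 = 0 := if_neg hS
        have c2 : cl r p a U S (θ w.1) = 0 := if_neg hS'
        have c3 : w ∉ X' := fun h => hM' w hS (hF1 X' hX' h)
        have c4 : (θ.subtypePerm (fun v => hW v) w : W) ∉ Y' := fun h => hM' _ hS' (hF1 Y' hY' h)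
        rw [if_neg c3, if_neg c4]
        show cl r p a U S (θ w.1) + 0 = cl r p a U S w.1 + 0
        rw [c1, c2]
  refine ⟨F.image (fun X' => qq p a b U (XX X')), ?_, ?_, ?_⟩
  · intro q hq
    obtain ⟨X', -, rfl⟩ := mem_image.1 hq
    exact ⟨qq_RT hRT hU _, qq_In hRT hIn hU _⟩
  · intro q hq q' hq' h
    obtain ⟨X', hX', rfl⟩ := mem_image.1 hq
    obtain ⟨Y', hY', rfl⟩ := mem_image.1 hq'
    rw [key X' hX' Y' hY' h]
  · rw [card_image_of_injOn]
    · rw [← hMcard]
      exact hF2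
    · intro X' hX' Y' hY' h
      refine key X' hX' Y' hY' ?_
      have h' : qq p a b U (XX X') = qq p a b U (XX Y') := h
      rw [h']
      exact Conj.refl _

end Pool.Agent.N218.NT
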