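import Pool.Agent.N943.NT.Stm

/-!
# NT/6a: counting the multisets with one element from each set
-/

set_option autoImplicit false

open Finset
open scoped Pointwise

namespace Pool.Agent.N218.NT

open N943.NT

section

variable {ι : Type} [DecidableEq ι]

/-- the multisets with one element from each set -/
noncomputable def MM (s : Finset ι) (C : ι → Finset ℕ) : Finset (Multiset ℕ) :=
  (s.pi C).image (fun x => s.attach.val.map (fun i => x i.1 i.2))

theorem mult_eq (s : Finset ι) (C : ι → Finset ℕ) : mult s C = (MM s C).card := rfl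

theorem mem_MM {s : Finset ι} {C : ι → Finset ℕ} {m : Multiset ℕ} :
    m ∈ MM s C ↔ ∃ y : ι → ℕ, (∀ i ∈ s, y i ∈ C i) ∧ s.val.map y = m := by
  unfold MM
  rw [mem_image]
  constructor
  · rintro ⟨x, hx, rfl⟩
    rw [mem_pi] at hx
    refine ⟨fun i => if h : i ∈ s then x i h else 0, fun i hi => ?_, ?_⟩
    · simp only [dif_pos hi]
      exact hx i hi
    · rw [← Multiset.attach_map_val s.val, Multiset.map_map]
      refine Multiset.map_congr rfl fun i _ => ?_
      simp only [Function.comp]
      exact dif_pos i.2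
  · rintro ⟨y, hy, rfl⟩
    refine ⟨fun i _ => y i, ?_, ?_⟩
    · rw [mem_pi]
      exact hy
    · conv_rhs => rw [← Multiset.attach_map_val s.val, Multiset.map_map]
      rfl

theorem MM_empty (C : ι → Finset ℕ) : MM (∅ : Finset ι) C = {0} := by
  ext m
  rw [mem_MM, mem_singleton]
  constructor
  · rintro ⟨y, -, rfl⟩
    rfl
  · rintro rfl
    exact ⟨fun _ => 0, by simp, rfl⟩

theorem MM_insert {s : Finset ι} {i : ι} (hi : i ∉ s) (C : ι → Finset ℕ) :
    MM (insert i s) C = (C i ×ˢ MM s C).image (fun q => q.1 ::ₘ q.2) := by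
  ext m
  rw [mem_MM, mem_image]
  constructor
  · rintro ⟨y, hy, rfl⟩
    refine ⟨(y i, s.val.map y), ?_, ?_⟩
    · rw [mem_product, mem_MM]
      exact ⟨hy i (mem_insert_self _ _), y, fun j hj => hy j (mem_insert_of_mem hj), rfl⟩
    · rw [insert_val_of_notMem hi, Multiset.map_cons]
  · rintro ⟨⟨a, t⟩, hq, rfl⟩
    rw [mem_product, mem_MM] at hq
    obtain ⟨ha, y, hy, ht⟩ := hq
    simp only at ha ht
    refine ⟨Function.update y i a, ?_, ?_⟩
    · intro j hj
      rcases mem_insert.1 hj with rfl | hj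
      · rw [Function.update_self]
        exact ha
      · have hji : j ≠ i := fun h => hi (by rw [← h]; exact hj)
        rw [Function.update_of_ne hji]
        exact hy j hj
    · rw [insert_val_of_notMem hi, Multiset.map_cons, Function.update_self, ← ht]
      simp only
      congr 1
      refine Multiset.map_congr rfl fun j hj => ?_
      have hji : j ≠ i := fun h => hi (by rw [← h]; exact hj)
      rw [Function.update_of_ne hji]

theorem MM_nonempty {s : Finset ι} {C : ι → Finset ℕ} (h : ∀ i ∈ s, (C i).Nonempty) :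
    (MM s C).Nonempty := by
  have h' : ∀ i, ∃ x, i ∈ s → x ∈ C i := by
    intro i
    by_cases hi : i ∈ s
    · obtain ⟨x, hx⟩ := h i hi
      exact ⟨x, fun _ => hx⟩
    · exact ⟨0, fun h => absurd h hi⟩
  choose y hy using h'
  exact ⟨_, mem_MM.2 ⟨y, fun i hi => hy i hi, rfl⟩⟩

theorem MM_card {s : Finset ι} {C : ι → Finset ℕ} {m : Multiset ℕ} (h : m ∈ MM s C) :
    Multiset.card m = s.card := by
  obtain ⟨y, -, rfl⟩ := mem_MM.1 h
  rw [Multiset.card_map]
  rfl

/-- enlarging the index set -/
theorem MM_mono {s I : Finset ι} {C : ι → Finset ℕ} (h : ∀ i ∈ s, (C i).Nonempty) (hI : I ⊆ s) :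
    (MM I C).card ≤ (MM s C).card := by
  obtain ⟨t, ht⟩ := MM_nonempty (s := s \ I) (C := C) fun i hi => h i (mem_sdiff.1 hi).1
  obtain ⟨z, hz, rfl⟩ := mem_MM.1 ht
  refine card_le_card_of_injOn (fun m => m + (s \ I).val.map z) ?_ ?_
  · intro m hm
    obtain ⟨y, hy, rfl⟩ := mem_MM.1 hm
    rw [mem_coe, mem_MM]
    refine ⟨fun i => if i ∈ I then y i else z i, ?_, ?_⟩
    · intro i hi
      by_cases hiI : i ∈ I
      · simp only [if_pos hiI]
        exact hy i hiI
      · simp only [if_neg hiI]
        exact hz i (mem_sdiff.2 ⟨hi, hiI⟩)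
    · have e : s.val = I.val + (s \ I).val := by
        have h1 : Disjoint I (s \ I) := disjoint_sdiff
        have h2 : (I.disjUnion (s \ I) h1).val = I.val + (s \ I).val := rfl
        rw [← h2, disjUnion_eq_union, union_sdiff_of_subset hI]
      rw [e, Multiset.map_add]
      congr 1
      · refine Multiset.map_congr rfl fun i hi => ?_
        exact if_pos hi
      · refine Multiset.map_congr rfl fun i hi => ?_
        exact if_neg (mem_sdiff.1 (show i ∈ s \ I from hi)).2
  · intro a _ b _ hab
    exact add_right_cancel hab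

/-- one set -/
theorem one_le {s : Finset ι} {C : ι → Finset ℕ} (h : ∀ i ∈ s, (C i).Nonempty) {i : ι}
    (hi : i ∈ s) : (C i).card ≤ (MM s C).card := by
  refine le_trans ?_ (MM_mono h (singleton_subset_iff.2 hi))
  have e : ({i} : Finset ι) = insert i ∅ := rfl
  rw [e, MM_insert (notMem_empty i), MM_empty]
  refine card_le_card_of_injOn (fun a => a ::ₘ 0) ?_ ?_
  · intro a ha
    rw [mem_coe, mem_image]
    exact ⟨(a, 0), mem_product.2 ⟨ha, mem_singleton_self _⟩, rfl⟩
  · intro a _ b _ hab
    exact Multiset.cons_inj_left 0 |>.1 hab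

/-- two sets -/
theorem two_le {s : Finset ι} {C : ι → Finset ℕ} (h : ∀ i ∈ s, (C i).Nonempty) {i j : ι}
    (hi : i ∈ s) (hj : j ∈ s) (hij : i ≠ j) (h2 : 2 ≤ (C i).card) (h2' : 2 ≤ (C j).card) :
    3 * (C i).card ≤ 2 * (MM s C).card := by
  have hsub : insert i ({j} : Finset ι) ⊆ s := by
    intro x hx
    rcases mem_insert.1 hx with rfl | hx
    · exact hi
    · rw [mem_singleton.1 hx]
      exact hj
  have h3 := MM_mono h hsub
  obtain ⟨b1, hb1, b2, hb2, hb⟩ := one_lt_card.1 (by omega : 1 < (C j).card)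
  have hmem : ∀ x ∈ C i, ∀ b ∈ C j, (x ::ₘ b ::ₘ 0 : Multiset ℕ) ∈ MM (insert i ({j} : Finset ι)) C := by
    intro x hx b hb
    rw [MM_insert (by rw [mem_singleton]; exact hij), mem_image]
    refine ⟨(x, b ::ₘ 0), mem_product.2 ⟨hx, ?_⟩, rfl⟩
    have e : ({j} : Finset ι) = insert j ∅ := rfl
    rw [e, MM_insert (notMem_empty j), MM_empty, mem_image]
    exact ⟨(b, 0), mem_product.2 ⟨hb, mem_singleton_self _⟩, rfl⟩
  set F1 := (C i).image (fun x => (x ::ₘ b1 ::ₘ 0 : Multiset ℕ)) with hF1
  set F2 := (C i).image (fun x => (x ::ₘ b2 ::ₘ 0 : Multiset ℕ)) with hF2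
  have c1 : F1.card = (C i).card := card_image_of_injOn fun a _ b _ hab =>
    (Multiset.cons_inj_left _).1 hab
  have c2 : F2.card = (C i).card := card_image_of_injOn fun a _ b _ hab =>
    (Multiset.cons_inj_left _).1 hab
  have c3 : (F1 ∩ F2).card ≤ 1 := by
    rw [card_le_one]
    have key : ∀ m ∈ F1 ∩ F2, m = b2 ::ₘ b1 ::ₘ 0 := by
      intro m hm
      rw [mem_inter, hF1, hF2, mem_image, mem_image] at hm
      obtain ⟨⟨x, -, hx⟩, x', -, hx'⟩ := hm
      have h5 : b1 ∈ (x' ::ₘ b2 ::ₘ 0 : Multiset ℕ) := by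
        rw [hx', ← hx]
        simp
      rw [Multiset.mem_cons, Multiset.mem_cons] at h5
      have h6 : b1 = x' := by
        rcases h5 with h5 | h5 | h5
        · exact h5
        · exact absurd h5 hb
        · exact absurd h5 (Multiset.notMem_zero _)
      rw [← hx', ← h6, Multiset.cons_swap]
    intro a ha b hb
    rw [key a ha, key b hb]
  have c4 : (F1 ∪ F2).card ≤ (MM (insert i ({j} : Finset ι)) C).card := by
    refine card_le_card ?_
    intro m hm
    rcases mem_union.1 hm with hm | hm
    · obtain ⟨x, hx, rfl⟩ := mem_image.1 hm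
      exact hmem x hx b1 hb1
    · obtain ⟨x, hx, rfl⟩ := mem_image.1 hm
      exact hmem x hx b2 hb2
  have c5 := card_union_add_card_inter F1 F2
  omega

/-- the fibres -/
theorem fib {s : Finset ι} {i : ι} (hi : i ∉ s) (C : ι → Finset ℕ) :
    (C i).card * (MM s C).card ≤ (s.card + 1) * (MM (insert i s) C).card := by
  rw [← card_product, MM_insert hi]
  refine card_le_mul_card_image _ _ ?_
  intro m hm
  obtain ⟨⟨a, t⟩, hq, rfl⟩ := mem_image.1 hm
  have hc : Multiset.card (a ::ₘ t) = s.card + 1 := by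
    rw [Multiset.card_cons, MM_card (mem_product.1 hq).2]
  simp only
  rw [← hc]
  refine le_trans ?_ (Multiset.toFinset_card_le _)
  refine card_le_card_of_injOn Prod.fst ?_ ?_
  · rintro ⟨x, y⟩ hxy
    rw [mem_coe, mem_filter] at hxy
    rw [mem_coe, Multiset.mem_toFinset, ← hxy.2]
    exact Multiset.mem_cons_self _ _
  · rintro ⟨x, y⟩ hxy ⟨x', y'⟩ hxy' h
    rw [mem_coe, mem_filter] at hxy hxy'
    simp only at h
    subst h
    have h7 : x ::ₘ y = x ::ₘ y' := hxy.2.trans hxy'.2.symm
    rw [(Multiset.cons_inj_right x).1 h7]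

theorem prod_le' (I : Finset ι) (C : ι → Finset ℕ) :
    ∏ i ∈ I, (C i).card ≤ I.card.factorial * (MM I C).card := by
  induction I using Finset.induction_on with
  | empty => rw [MM_empty]; simp
  | insert i I hi ih =>
    rw [prod_insert hi, card_insert_of_notMem hi, Nat.factorial_succ]
    calc (C i).card * ∏ j ∈ I, (C j).card ≤ (C i).card * (I.card.factorial * (MM I C).card) :=
          Nat.mul_le_mul_left _ ih
      _ = I.card.factorial * ((C i).card * (MM I C).card) := by ring
      _ ≤ I.card.factorial * ((I.card + 1) * (MM (insert i I) C).card) :=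
          Nat.mul_le_mul_left _ (fib hi C)
      _ = _ := by ring

/-- the sums -/
theorem sums_le {s : Finset ι} {C : ι → Finset ℕ} (h : ∀ i ∈ s, (C i).Nonempty) :
    1 + ∑ i ∈ s, ((C i).card - 1) ≤ ((MM s C).image Multiset.sum).card := by
  induction s using Finset.induction_on with
  | empty => rw [MM_empty]; simp
  | insert i s hi ih =>
    have hs : ∀ j ∈ s, (C j).Nonempty := fun j hj => h j (mem_insert_of_mem hj)
    have hCi := h i (mem_insert_self _ _)
    have e : (MM (insert i s) C).image Multiset.sum = C i + (MM s C).image Multiset.sum := by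
      rw [MM_insert hi]
      ext x
      rw [mem_image, mem_add]
      constructor
      · rintro ⟨m, hm, rfl⟩
        obtain ⟨⟨a, t⟩, hq, rfl⟩ := mem_image.1 hm
        rw [mem_product] at hq
        exact ⟨a, hq.1, t.sum, mem_image_of_mem _ hq.2, (Multiset.sum_cons a t).symm⟩
      · rintro ⟨a, ha, y, hy, rfl⟩
        obtain ⟨t, ht, rfl⟩ := mem_image.1 hy
        exact ⟨a ::ₘ t, mem_image.2 ⟨(a, t), mem_product.2 ⟨ha, ht⟩, rfl⟩, Multiset.sum_cons a t⟩
    have h1 := ih hs
    have h2 := cauchy_davenport_add_of_linearOrder_isCancelAdd hCi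
      ((MM_nonempty hs).image Multiset.sum)
    rw [sum_insert hi, e]
    have h3 := hCi.card_pos
    omega

end

/-- **NT/6a** -/
theorem multBd : MultBd := by
  intro ι _ s C h
  refine ⟨fun i hi => one_le h hi, fun i hi j hj hij h2 h2' => two_le h hi hj hij h2 h2', ?_, ?_⟩
  · intro I hI
    exact (prod_le' I C).trans (Nat.mul_le_mul_left _ (MM_mono h hI))
  · exact (sums_le h).trans card_image_le

end Pool.Agent.N218.NT
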