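import Pool.Agent.N943.NT.Basic

/-!
# NT/8: two non-isomorphic spanning trees
-/

set_option autoImplicit false

open Finset

namespace Pool.Agent.N218.NT

open N943.NT

section

variable {V : Type} [Fintype V] [DecidableEq V] {r : V} {p q : V → V}

theorem gr_adj {a b : V} : (gr p).Adj a b ↔ a ≠ b ∧ (p a = b ∨ p b = a) := by
  unfold gr
  rw [SimpleGraph.fromRel_adj]

theorem nb_root (h : RT r p) : (gr p).neighborSet r = (ch p r : Set V) := by
  ext b
  rw [SimpleGraph.mem_neighborSet, gr_adj, mem_coe, mem_ch]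
  constructor
  · rintro ⟨h1, h2 | h2⟩
    · exact absurd (h.1.symm.trans h2) h1
    · exact ⟨h1.symm, h2⟩
  · rintro ⟨h1, h2⟩
    exact ⟨h1.symm, Or.inr h2⟩

theorem nb_ne (h : RT r p) {v : V} (hv : v ≠ r) :
    (gr p).neighborSet v = ((insert (p v) (ch p v) : Finset V) : Set V) := by
  ext b
  rw [SimpleGraph.mem_neighborSet, gr_adj, mem_coe, mem_insert, mem_ch]
  constructor
  · rintro ⟨h1, h2 | h2⟩
    · exact Or.inl h2.symm
    · exact Or.inr ⟨h1.symm, h2⟩
  · rintro (rfl | ⟨h1, h2⟩)
    · exact ⟨fun h' => hv (h.eq_root_of_fix h'.symm), Or.inl rfl⟩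
    · exact ⟨h1.symm, Or.inr h2⟩

theorem dg_root (h : RT r p) : dg (gr p) r = (ch p r).card := by
  unfold dg
  rw [nb_root h, Set.ncard_coe_finset]

theorem dg_ne (h : RT r p) {v : V} (hv : v ≠ r) : dg (gr p) v = (ch p v).card + 1 := by
  unfold dg
  rw [nb_ne h hv, Set.ncard_coe_finset, card_insert_of_notMem]
  intro h1
  rw [mem_ch] at h1
  have h2 := h.dep_succ hv
  by_cases h3 : p v = r
  · rw [h3] at h1
    exact hv (h1.2.symm.trans h.1 |>.symm ▸ rfl)
  · have h4 := h.dep_succ h3
    rw [h1.2] at h4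
    omega

/-- the vertices of degree one -/
noncomputable def N1 (p : V → V) : Finset V := univ.filter (fun v => dg (gr p) v = 1)

theorem N1_iso (h : Nonempty (gr p ≃g gr q)) : (N1 p).card = (N1 q).card := by
  obtain ⟨φ⟩ := h
  refine card_bij (fun v _ => φ v) ?_ (fun a _ b _ hab => φ.injective hab) ?_
  · intro v hv
    unfold N1 at hv ⊢
    rw [mem_filter] at hv ⊢
    refine ⟨mem_univ _, ?_⟩
    rw [← hv.2]
    unfold dg
    have e : (gr q).neighborSet (φ v) = φ '' (gr p).neighborSet v := by
      ext b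
      rw [SimpleGraph.mem_neighborSet, Set.mem_image]
      constructor
      · intro hb
        refine ⟨φ.symm b, ?_, φ.apply_symm_apply b⟩
        rw [SimpleGraph.mem_neighborSet, ← φ.map_adj_iff, φ.apply_symm_apply]
        exact hb
      · rintro ⟨a, ha, rfl⟩
        exact φ.map_adj_iff.2 ha
    rw [e, Set.ncard_image_of_injective _ φ.injective]
  · intro w hw
    unfold N1 at hw
    rw [mem_filter] at hw
    refine ⟨φ.symm w, ?_, φ.apply_symm_apply w⟩
    unfold N1
    rw [mem_filter]
    refine ⟨mem_univ _, ?_⟩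
    rw [← hw.2]
    unfold dg
    have e : (gr p).neighborSet (φ.symm w) = φ.symm '' (gr q).neighborSet w := by
      ext b
      rw [SimpleGraph.mem_neighborSet, Set.mem_image]
      constructor
      · intro hb
        refine ⟨φ b, ?_, φ.symm_apply_apply b⟩
        rw [SimpleGraph.mem_neighborSet, ← φ.apply_symm_apply w]
        exact φ.map_adj_iff.2 hb
      · rintro ⟨a, ha, rfl⟩
        exact φ.symm.map_adj_iff.2 ha
    rw [e, Set.ncard_image_of_injective _ φ.symm.injective]

/-- the neighbours of a childless vertex are ancestors of its parent -/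
theorem nb_anc {G : SimpleGraph V} (hN : Normal G p) {u w : V} (hu : ch p u = ∅)
    (hw : G.Adj u w) : Anc p w (p u) := by
  rcases hN u w hw with h | h
  · exfalso
    obtain ⟨c, hc, -⟩ := Anc.exists_child h hw.ne
    rw [hu] at hc
    exact notMem_empty _ hc
  · rcases h.cases with h | h
    · exact absurd h.symm hw.ne
    · exact h

end

/-- **NT/8** -/
theorem twoTrees (hE : ExNormal) : TwoTrees := by
  intro V _ _ G hG hdeg
  classical
  obtain ⟨r⟩ := hG.nonempty
  obtain ⟨p, hRT, hIn, hN⟩ := hE V G r hG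
  obtain ⟨v, -, hmax⟩ := exists_max_image (univ : Finset V) (dep r p) ⟨r, mem_univ r⟩
  have hmax' : ∀ u, dep r p u ≤ dep r p v := fun u => hmax u (mem_univ u)
  -- three neighbours
  have three : ∀ (u : V) (S : Finset V), S.card ≤ 2 → ∃ w, G.Adj u w ∧ w ∉ S := by
    intro u S hS
    by_contra hc
    push Not at hc
    have h1 : G.neighborSet u ⊆ (S : Set V) := fun w hw => hc w hw
    have h2 := Set.ncard_le_ncard h1 (Finset.finite_toSet S)
    rw [Set.ncard_coe_finset] at h2
    have h3 := hdeg u
    unfold dg at h3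
    omega
  have hvr : v ≠ r := by
    rintro rfl
    obtain ⟨w, hw, -⟩ := three v ∅ (by simp)
    have h1 := hRT.dep_pos hw.ne.symm
    have h2 := hmax' w
    rw [dep_root] at h2
    omega
  set x := p v with hx
  have hdx : dep r p v = dep r p x + 1 := hRT.dep_succ hvr
  have hvx : v ∈ ch p x := hRT.mem_ch_self hvr
  have hdc : ∀ u ∈ ch p x, dep r p u = dep r p x + 1 := by
    intro u hu
    have h1 := hRT.mem_ch_iff.1 hu
    rw [hRT.dep_succ h1.1, h1.2]
  have hless : ∀ u ∈ ch p x, ch p u = ∅ := by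
    intro u hu
    rw [eq_empty_iff_forall_notMem]
    intro w hw
    have h1 := hRT.mem_ch_iff.1 hw
    have h2 := hRT.dep_succ h1.1
    rw [h1.2, hdc u hu] at h2
    have h3 := hmax' w
    omega
  have hxr : x ≠ r := by
    intro hxr
    obtain ⟨w, hw, hw2⟩ := three v {r} (by simp)
    have h1 := nb_anc hN (hless v hvx) hw
    rw [← hx, hxr] at h1
    exact hw2 (mem_singleton.2 (Anc.root_of hRT h1))
  have hz : ∀ u, ∃ w, u ∈ ch p x → G.Adj u w ∧ w ≠ x ∧ w ≠ r ∧ Anc p w x := by
    intro u
    by_cases hu : u ∈ ch p x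
    · obtain ⟨w, hw, hw2⟩ := three u {x, r} (card_le_two)
      rw [mem_insert, mem_singleton, not_or] at hw2
      have h1 := nb_anc hN (hless u hu) hw
      rw [(hRT.mem_ch_iff.1 hu).2] at h1
      exact ⟨w, fun _ => ⟨hw, hw2.1, hw2.2, h1⟩⟩
    · exact ⟨r, fun h => absurd h hu⟩
  choose z hz using hz
  set q : V → V := fun u => if u ∈ ch p x then z u else p u with hq
  have q_in : ∀ u, u ∈ ch p x → q u = z u := fun u hu => if_pos hu
  have q_out : ∀ u, u ∉ ch p x → q u = p u := fun u hu => if_neg hu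
  have hr : r ∉ ch p x := fun h => (hRT.mem_ch_iff.1 h).1 rfl
  have hRTq : RT r q := by
    refine RT_of_lt (dep r p) ?_ ?_
    · rw [q_out r hr, hRT.1]
    · intro u hu
      by_cases h1 : u ∈ ch p x
      · rw [q_in u h1, hdc u h1]
        have := Anc.dep_le hRT (hz u h1).2.2.2
        omega
      · rw [q_out u h1, hRT.dep_succ hu]
        omega
  have hInq : InG G q := by
    intro u hu
    by_cases h1 : u ∈ ch p x
    · rw [q_in u h1]
      exact (hz u h1).1
    · rw [q_out u h1] at hu ⊢
      exact hIn u hu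
  refine ⟨r, p, q, hRT, hIn, hRTq, hInq, ?_⟩
  intro hiso
  have hc := N1_iso hiso
  -- the children in `q`
  have cx : ch q x = ∅ := by
    rw [eq_empty_iff_forall_notMem]
    intro u hu
    rw [hRTq.mem_ch_iff] at hu
    by_cases h1 : u ∈ ch p x
    · rw [q_in u h1] at hu
      exact (hz u h1).2.1 hu.2
    · rw [q_out u h1] at hu
      exact h1 (hRT.mem_ch_iff.2 hu)
  have cr : ch q r = ch p r := by
    ext u
    rw [hRTq.mem_ch_iff, hRT.mem_ch_iff]
    by_cases h1 : u ∈ ch p x
    · rw [q_in u h1]
      constructor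
      · intro h; exact absurd h.2 (hz u h1).2.2.1
      · intro h
        exact absurd ((hRT.mem_ch_iff.1 h1).2.symm.trans h.2) hxr
    · rw [q_out u h1]
  have cy : ∀ y, y ≠ x → (ch q y = ∅ ↔ ch p y = ∅) := by
    intro y hy
    constructor
    · intro h
      rw [eq_empty_iff_forall_notMem] at h ⊢
      intro u hu
      refine h u ?_
      rw [hRT.mem_ch_iff] at hu
      rw [hRTq.mem_ch_iff, q_out u]
      · exact hu
      · intro h1
        exact hy (hu.2.symm.trans (hRT.mem_ch_iff.1 h1).2)
    · intro h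
      rw [eq_empty_iff_forall_notMem]
      intro u hu
      rw [hRTq.mem_ch_iff] at hu
      by_cases h1 : u ∈ ch p x
      · rw [q_in u h1] at hu
        have h2 := (hz u h1).2.2.2
        rw [hu.2] at h2
        obtain ⟨c, hc, -⟩ := Anc.exists_child h2 hy
        rw [h] at hc
        exact notMem_empty _ hc
      · rw [q_out u h1] at hu
        have := hRT.mem_ch_iff.2 hu
        rw [h] at this
        exact notMem_empty _ this
  have hN1 : N1 q = insert x (N1 p) := by
    ext y
    unfold N1
    rw [mem_insert, mem_filter, mem_filter]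
    by_cases hy : y = x
    · subst hy
      refine iff_of_true ⟨mem_univ _, ?_⟩ (Or.inl rfl)
      rw [dg_ne hRTq hxr, cx]
      rfl
    · simp only [mem_univ, true_and, hy, false_or]
      by_cases hyr : y = r
      · subst hyr
        rw [dg_root hRTq, dg_root hRT, cr]
      · rw [dg_ne hRTq hyr, dg_ne hRT hyr]
        have := cy y hy
        rw [← card_eq_zero, ← card_eq_zero] at this
        omega
  have hxN : x ∉ N1 p := by
    unfold N1
    rw [mem_filter]
    rintro ⟨-, h1⟩
    rw [dg_ne hRT hxr] at h1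
    have := card_pos.2 ⟨v, hvx⟩
    omega
  rw [hN1, card_insert_of_notMem hxN] at hc
  omega

end Pool.Agent.N218.NT
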